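import Pool.Agent.helper66.JS.Defs

/-!
# Module Lo: the loads of the three machines agree
-/

set_option autoImplicit false

namespace Pool.Agent.helper66.JS

open Turing Finset

private theorem lo_at_three (w : WD) (q : ℕ) : three (w.at q) = true := by
  unfold WD.at
  split_ifs
  · rfl
  · rfl
  · rfl
  · split
    · rfl
    · split_ifs <;> rfl

theorem words_three (W : List WD) (E : ℕ) :
    ∀ w ∈ words W E, 2 ≤ w.length → ∀ x ∈ w, three x = true := by
  intro w hw h2 x hx
  unfold words at hw
  simp only [List.mem_append, List.mem_map, List.mem_replicate, List.mem_cons,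
    List.not_mem_nil, or_false] at hw
  rcases hw with ((((⟨v, _, rfl⟩ | ⟨_, rfl⟩) | ⟨_, rfl⟩) | ⟨_, rfl⟩) | ⟨_, rfl⟩) | (rfl | rfl)
  · unfold WD.letters at hx
    obtain ⟨q, _, rfl⟩ := List.mem_map.1 hx
    exact lo_at_three v q
  all_goals simp at h2

private theorem lo_ofFn {α : Type} (l : List α) (g : α → ℤ) :
    List.ofFn (fun i : Fin l.length => g (l.get i)) = l.map g := by
  conv_rhs => rw [← List.ofFn_get l, List.map_ofFn]
  rfl

private theorem lo_sum_occ (ws : List (List Let)) (f : Let → ℤ) :
    ∑ x : Occ ws, f (kdOf ws x) = (ws.flatten.map f).sum := by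
  rw [Fintype.sum_sigma]
  have h1 : ∀ l : List Let, ∑ k : Fin l.length, f (l.get k) = (l.map f).sum := by
    intro l
    rw [← List.sum_ofFn]
    congr 1
    exact lo_ofFn l f
  have h2 : ∀ j : Fin ws.length, ∑ k : Fin (ws.get j).length, f (kdOf ws ⟨j, k⟩) =
      ((ws.get j).map f).sum := fun j => h1 (ws.get j)
  rw [Finset.sum_congr rfl (fun j _ => h2 j)]
  rw [← List.sum_ofFn]
  have h3 : List.ofFn (fun j : Fin ws.length => ((ws.get j).map f).sum) =
      ws.map (fun w => (w.map f).sum) := lo_ofFn ws (fun w => (w.map f).sum)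
  rw [h3]
  rw [List.map_flatten, List.sum_flatten, List.map_map]
  rfl

private theorem lo_range_split (g : ℕ → ℤ) (K : ℕ) :
    ((List.range (2 * K + 1)).map g).sum =
      ∑ k ∈ range (K + 1), g (2 * k) + ∑ k ∈ range K, g (2 * k + 1) := by
  induction K with
  | zero => simp
  | succ K ih =>
    rw [show 2 * (K + 1) + 1 = (2 * K + 1) + 1 + 1 by ring, List.range_succ, List.range_succ,
      List.map_append, List.map_append, List.sum_append, List.sum_append, ih,
      Finset.sum_range_succ (fun k => g (2 * k)) (K + 1),
      Finset.sum_range_succ (fun k => g (2 * k + 1)) K]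
    simp only [List.map_cons, List.map_nil, List.sum_cons, List.sum_nil]
    ring_nf

private theorem lo_word (w : WD) (hw : w.Ok) (f : Let → ℤ) (h1 : f .n1 = 0) (h2 : f .n2 = 0)
    (h3 : f .up + f .dn = 0) :
    (w.letters.map f).sum = f .a * w.A.card + f .z * w.Z.card := by
  unfold WD.letters
  rw [List.map_map]
  have := lo_range_split (f ∘ w.at) w.K
  rw [this]
  have e1 : ∀ k, (f ∘ w.at) (2 * k) = (if k ∈ w.A then f .a else 0) +
      (if k ∈ w.Z then f .z else 0) := by
    intro k
    have hk : 2 * k / 2 = k := by omega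
    simp only [Function.comp, WD.at, show 2 * k % 2 = 0 by omega, if_true, hk]
    by_cases hz : k ∈ w.Z
    · have ha : k ∉ w.A := fun h => (Finset.disjoint_left.1 hw.disj) h hz
      simp [hz, ha]
    · by_cases ha : k ∈ w.A
      · simp [hz, ha]
      · simp [hz, ha, h1]
  have e2 : ∑ k ∈ range w.K, (f ∘ w.at) (2 * k + 1) = 0 := by
    have hat : ∀ k, w.at (2 * k + 1) = match w.ud with
        | none => .n2
        | some (u, d) => if k = u then .up else if k = d then .dn else .n2 := by
      intro k
      have hk : (2 * k + 1) / 2 = k := by omega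
      simp only [WD.at, show ¬ ((2 * k + 1) % 2 = 0) by omega, if_false, hk]
      rcases w.ud with _ | ⟨u, d⟩ <;> rfl
    rcases hud : w.ud with _ | ⟨u, d⟩
    · apply Finset.sum_eq_zero
      intro k _
      simp only [Function.comp, hat, hud, h2]
    · obtain ⟨hlt, hdK⟩ := hw.hud u d hud
      have : ∀ k ∈ range w.K, (f ∘ w.at) (2 * k + 1) =
          (if k = u then f .up else 0) + (if k = d then f .dn else 0) := by
        intro k _
        simp only [Function.comp, hat, hud]
        by_cases hu : k = u
        · have : k ≠ d := by omega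
          simp only [hu, if_true]
          rw [if_neg (by omega)]
          ring
        · by_cases hd : k = d
          · subst hd
            simp [hu]
          · simp [hu, hd, h2]
      rw [Finset.sum_congr rfl this, Finset.sum_add_distrib, Finset.sum_ite_eq' (range w.K) u,
        Finset.sum_ite_eq' (range w.K) d, if_pos (Finset.mem_range.2 (by omega)),
        if_pos (Finset.mem_range.2 hdK)]
      exact h3
  rw [e2, add_zero, Finset.sum_congr rfl (fun k _ => e1 k), Finset.sum_add_distrib]
  have hA : ∑ k ∈ range (w.K + 1), (if k ∈ w.A then f .a else 0) = f .a * w.A.card := by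
    rw [← Finset.sum_filter, Finset.sum_const, nsmul_eq_mul, mul_comm]
    congr 3
    ext k
    simp only [Finset.mem_filter, Finset.mem_range]
    exact ⟨fun h => h.2, fun h => ⟨by have := hw.hA k h; omega, h⟩⟩
  have hZ : ∑ k ∈ range (w.K + 1), (if k ∈ w.Z then f .z else 0) = f .z * w.Z.card := by
    rw [← Finset.sum_filter, Finset.sum_const, nsmul_eq_mul, mul_comm]
    congr 3
    ext k
    simp only [Finset.mem_filter, Finset.mem_range]
    exact ⟨fun h => h.2, fun h => ⟨by have := hw.hZ k h; omega, h⟩⟩
  rw [hA, hZ]

private theorem lo_total (W : List WD) (E : ℕ) (hW : ∀ w ∈ W, w.Ok) (f : Let → ℤ)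
    (hb : (W.map (fun w => w.A.card)).sum = (W.map (fun w => w.Z.card)).sum)
    (h1 : f .n1 = 0) (h2 : f .n2 = 0) (h3 : f .up + f .dn = 0) (h4 : f .a + f .z = 0)
    (h5 : f .s + f .r = 0) :
    ((words W E).flatten.map f).sum = f .e1 + f .e2 := by
  have hrep : ∀ (n : ℕ) (x : Let), (((List.replicate n [x]).flatten).map f).sum = n * f x := by
    intro n x
    induction n with
    | zero => simp
    | succ n ih =>
      rw [List.replicate_succ, List.flatten_cons, List.map_append, List.sum_append, ih]
      simp only [List.map_cons, List.map_nil, List.sum_cons, List.sum_nil]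
      push_cast
      ring
  have hWs : (((W.map WD.letters).flatten).map f).sum =
      f .a * (W.map (fun w => w.A.card)).sum + f .z * (W.map (fun w => w.Z.card)).sum := by
    clear hb
    induction W with
    | nil => simp
    | cons w W ih =>
      rw [List.map_cons, List.flatten_cons, List.map_append, List.sum_append,
        ih (fun v hv => hW v (List.mem_cons_of_mem _ hv)),
        lo_word w (hW w (List.mem_cons_self)) f h1 h2 h3]
      simp only [List.map_cons, List.sum_cons]
      push_cast
      ring
  unfold words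
  simp only [List.flatten_append, List.map_append, List.sum_append]
  rw [hWs, hrep, hrep, hrep, hrep, hb, h1, h2]
  simp only [List.flatten_cons, List.flatten_nil, List.append_nil, List.map_append, List.map_cons,
    List.map_nil, List.sum_append, List.sum_cons, List.sum_nil]
  have h6 : f .z = - f .a := by linarith
  have h7 : f .r = - f .s := by linarith
  rw [h6, h7]
  ring

theorem loads (W : List WD) (E : ℕ) (hW : ∀ w ∈ W, w.Ok)
    (hb : (W.map (fun w => w.A.card)).sum = (W.map (fun w => w.Z.card)).sum) :
    (∑ x : Occ (words W E), pp (kdOf _ x)) = Lof (words W E) ∧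
    26 + (∑ x : Occ (words W E), uu (kdOf _ x)) = Lof (words W E) ∧
    48 + (∑ x : Occ (words W E), vv (kdOf _ x)) = Lof (words W E) := by
  have key : ∀ g : Let → ℕ, ((∑ x : Occ (words W E), g (kdOf _ x) : ℕ) : ℤ) =
      ((words W E).flatten.map (fun x => (g x : ℤ))).sum := by
    intro g
    push_cast
    exact lo_sum_occ (words W E) (fun x => (g x : ℤ))
  have hL : ((Lof (words W E) : ℕ) : ℤ) =
      ((words W E).flatten.map (fun x => (pp x : ℤ))).sum := by
    unfold Lof
    rw [Nat.cast_list_sum, List.map_map]
    rfl
  have hsub : ∀ g : Let → ℕ, ((words W E).flatten.map (fun x => (g x : ℤ))).sum =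
      ((words W E).flatten.map (fun x => (pp x : ℤ))).sum +
      ((words W E).flatten.map (fun x => (g x : ℤ) - pp x)).sum := by
    intro g
    rw [← List.sum_map_add]
    congr 2
    funext x
    ring
  refine ⟨?_, ?_, ?_⟩
  · have := key pp
    rw [← hL] at this
    exact_mod_cast this
  · have h := lo_total W E hW (fun x => (uu x : ℤ) - pp x) hb (by simp [uu, pp]) (by simp [uu, pp])
      (by simp [uu, pp]) (by simp [uu, pp]) (by simp [uu, pp])
    have h' := key uu
    rw [hsub uu, ← hL, h] at h'
    have e1 : uu .e1 = 22 := rfl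
    have e2 : uu .e2 = 0 := rfl
    have e3 : pp .e1 = 26 := rfl
    have e4 : pp .e2 = 22 := rfl
    rw [e1, e2, e3, e4] at h'
    have : (26 + (∑ x : Occ (words W E), uu (kdOf _ x) : ℕ) : ℤ) = (Lof (words W E) : ℕ) := by
      rw [h']; push_cast; ring
    exact_mod_cast this
  · have h := lo_total W E hW (fun x => (vv x : ℤ) - pp x) hb (by simp [vv, pp]) (by simp [vv, pp])
      (by simp [vv, pp]) (by simp [vv, pp]) (by simp [vv, pp])
    have h' := key vv
    rw [hsub vv, ← hL, h] at h'
    have e1 : vv .e1 = 0 := rfl
    have e2 : vv .e2 = 0 := rfl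
    have e3 : pp .e1 = 26 := rfl
    have e4 : pp .e2 = 22 := rfl
    rw [e1, e2, e3, e4] at h'
    have : (48 + (∑ x : Occ (words W E), vv (kdOf _ x) : ℕ) : ℤ) = (Lof (words W E) : ℕ) := by
      rw [h']; push_cast; ring
    exact_mod_cast this

end Pool.Agent.helper66.JS
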